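import Pool.Agent.SSF.StmtsB

/-! # Squad SSF (MP_005a41_gt), row FLH: flows on a homogeneous space -/

set_option autoImplicit false

open Set Topology

namespace Pool.Agent.SSF.H69

open Pool.Agent.LSG Pool.Agent.LPR Pool.Agent.SSF

theorem flh : FlhStmt := by
  intro Q X _ _ _ _ _ _ heff htr γ hγ hadd ht x
  obtain ⟨t, ht⟩ := ht
  have hx0 : ∃ x₀ : X, γ t • x₀ ≠ x₀ := by
    by_contra h
    push Not at h
    exact ht (heff _ h)
  obtain ⟨x₀, hx₀⟩ := hx0
  obtain ⟨q, hq⟩ := htr x₀ x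
  have h0 : γ 0 = 1 := by
    have h1 := hadd 0 0
    rw [add_zero] at h1
    exact (mul_eq_left.1 h1.symm)
  refine ⟨fun s y => (q * γ s * q⁻¹) • y, ?_, ?_, ?_, t, ?_⟩
  · exact ((continuous_const.mul (hγ.comp continuous_fst)).mul continuous_const).smul
      continuous_snd
  · intro y
    change (q * γ 0 * q⁻¹) • y = y
    rw [h0, mul_one, mul_inv_cancel, one_smul]
  · intro s r y
    change (q * γ (s + r) * q⁻¹) • y = (q * γ s * q⁻¹) • (q * γ r * q⁻¹) • y
    rw [smul_smul, hadd]
    congr 1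
    group
  · intro h
    change (q * γ t * q⁻¹) • x = x at h
    rw [← hq, smul_smul, inv_mul_cancel_right, mul_smul] at h
    exact hx₀ (smul_left_cancel q h)

end Pool.Agent.SSF.H69
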